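import Pool.Agent.E8helper11.FL.Stm

/-!
# Project FL, piece CHAIN: nested subtrees
-/

set_option autoImplicit false

open SimpleGraph
open scoped Classical

namespace FL7

open FL11

variable {V : Type} {G : SimpleGraph V} {S : Finset V} {r : V} {par : V → V} {h : V → ℕ}
  {sp : V → Prop} {d : ℕ}

/-- `u` is an ancestor of `z` (or equal to it) -/
def Anc (par : V → V) (z u : V) : Prop := ∃ k, par^[k] z = u

lemma Anc.rfl' (z : V) : Anc par z z := ⟨0, rfl⟩

lemma Anc.trans {a b c : V} (h1 : Anc par a b) (h2 : Anc par b c) : Anc par a c := by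
  obtain ⟨k, rfl⟩ := h1
  obtain ⟨l, rfl⟩ := h2
  exact ⟨l + k, by rw [Function.iterate_add_apply]⟩

lemma Anc.step {z u : V} (hz : par z = u) : Anc par z u := ⟨1, hz⟩

lemma Anc.cmp {z u w : V} (h1 : Anc par z u) (h2 : Anc par z w) : Anc par u w ∨ Anc par w u := by
  obtain ⟨a, rfl⟩ := h1
  obtain ⟨b, rfl⟩ := h2
  rcases le_total a b with hab | hab
  · left
    exact ⟨b - a, by rw [← Function.iterate_add_apply, Nat.sub_add_cancel hab]⟩
  · right
    exact ⟨a - b, by rw [← Function.iterate_add_apply, Nat.sub_add_cancel hab]⟩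

lemma iter_mem (hT : RTree G S r par h) {x : V} (hx : x ∈ S) (k : ℕ) : par^[k] x ∈ S := by
  induction k with
  | zero => exact hx
  | succ k ih =>
    rw [Function.iterate_succ_apply']
    exact hT.par_mem _ ih

lemma Anc.mem (hT : RTree G S r par h) {x u : V} (hx : x ∈ S) (hu : Anc par x u) : u ∈ S := by
  obtain ⟨k, rfl⟩ := hu
  exact iter_mem hT hx k

lemma eq_root (hT : RTree G S r par h) {x : V} (hx : x ∈ S) (h0 : h x = 0) : x = r := by
  by_contra hne
  have := hT.height x hx hne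
  omega

lemma height_iter (hT : RTree G S r par h) {x : V} (hx : x ∈ S) (k : ℕ) :
    h (par^[k] x) = h x - k := by
  induction k with
  | zero => rfl
  | succ k ih =>
    rw [Function.iterate_succ_apply']
    by_cases hr : par^[k] x = r
    · rw [hr, hT.par_root, hT.height_root]
      rw [hr, hT.height_root] at ih
      omega
    · have := hT.height _ (iter_mem hT hx k) hr
      omega

lemma anc_root (hT : RTree G S r par h) {x : V} (hx : x ∈ S) : Anc par x r :=
  ⟨h x, eq_root hT (iter_mem hT hx _) (by rw [height_iter hT hx]; omega)⟩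

lemma height_le (hT : RTree G S r par h) {x u : V} (hx : x ∈ S) (hu : Anc par x u) :
    h u ≤ h x := by
  obtain ⟨k, rfl⟩ := hu
  rw [height_iter hT hx]
  omega

lemma anc_eq (hT : RTree G S r par h) {x u : V} (hx : x ∈ S) (hu : Anc par x u)
    (he : h u = h x) : u = x := by
  obtain ⟨k, rfl⟩ := hu
  have h1 := height_iter hT hx k
  rcases Nat.eq_zero_or_pos (h x) with h0 | h0
  · have e1 := eq_root hT hx h0
    have e2 := eq_root hT (iter_mem hT hx k) (by omega)
    rw [e2, e1]
  · have : k = 0 := by omega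
    rw [this]
    rfl

lemma anc_same (hT : RTree G S r par h) {z u w : V} (hz : z ∈ S) (h1 : Anc par z u)
    (h2 : Anc par z w) (he : h u = h w) : u = w := by
  rcases h1.cmp h2 with h3 | h3
  · exact (anc_eq hT (h1.mem hT hz) h3 he.symm).symm
  · exact anc_eq hT (h2.mem hT hz) h3 he

/-- the child of `z` on the way to `x` -/
lemma child (hT : RTree G S r par h) {x z : V} (hx : x ∈ S) (hz : Anc par x z) (hne : x ≠ z) :
    ∃ c ∈ S, c ≠ r ∧ par c = z ∧ Anc par x c := by
  have hz' : ∃ k, par^[k] x = z := hz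
  set k := Nat.find hz' with hk
  have h1 : par^[k] x = z := Nat.find_spec hz'
  obtain ⟨l, hl⟩ : ∃ l, k = l + 1 := by
    rcases Nat.eq_zero_or_pos k with h0 | h0
    · rw [h0] at h1
      exact absurd h1 hne
    · exact ⟨k - 1, by omega⟩
  have h2 : par (par^[l] x) = z := by
    have h1' := h1
    rw [hl, Function.iterate_succ_apply'] at h1'
    exact h1'
  refine ⟨par^[l] x, iter_mem hT hx l, ?_, h2, ⟨l, rfl⟩⟩
  intro hr
  have h3 : par^[l] x = z := by
    rw [hr, hT.par_root] at h2
    rw [hr]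
    exact h2
  exact Nat.find_min hz' (by omega : l < Nat.find hz') h3

/-- the nodes below `u` -/
noncomputable def nd (S : Finset V) (r : V) (par : V → V) (sp : V → Prop) (u : V) : Finset V :=
  S.filter (fun x => IsNode S r par sp x ∧ Anc par x u)

/-- the children of `z` -/
noncomputable def Ch (S : Finset V) (r : V) (par : V → V) (z : V) : Finset V :=
  S.filter (fun c => c ≠ r ∧ par c = z)

lemma descend (hd : 1 ≤ d) (hT : RTree G S r par h)
    (hdeg : ∀ x ∈ S, ∀ C : Finset V, (∀ c ∈ C, c ∈ S ∧ c ≠ r ∧ par c = x) → C.card ≤ d)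
    {th : ℕ} (hth : 1 ≤ th) {u : V} (hu : u ∈ S) (hnu : th ≤ (nd S r par sp u).card) :
    ∃ z ∈ S, Anc par z u ∧ th ≤ (nd S r par sp z).card ∧ (nd S r par sp z).card ≤ d * th := by
  obtain ⟨z, hz, hmax⟩ := Finset.exists_max_image
    (S.filter (fun z => Anc par z u ∧ th ≤ (nd S r par sp z).card)) h
    ⟨u, Finset.mem_filter.2 ⟨hu, Anc.rfl' u, hnu⟩⟩
  rw [Finset.mem_filter] at hz
  obtain ⟨hzS, hzu, hzth⟩ := hz
  refine ⟨z, hzS, hzu, hzth, ?_⟩
  have hch : ∀ c ∈ Ch S r par z, (nd S r par sp c).card ≤ th - 1 := by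
    intro c hc
    unfold Ch at hc
    rw [Finset.mem_filter] at hc
    obtain ⟨hcS, hcr, hcz⟩ := hc
    by_contra hcon
    have h1 := hmax c (Finset.mem_filter.2 ⟨hcS, (Anc.step hcz).trans hzu, by omega⟩)
    have h2 := hT.height c hcS hcr
    rw [hcz] at h2
    omega
  have hsub : nd S r par sp z ⊆ {z} ∪ (Ch S r par z).biUnion (nd S r par sp) := by
    intro x hx
    unfold nd at hx
    rw [Finset.mem_filter] at hx
    obtain ⟨hxS, hxn, hxz⟩ := hx
    rw [Finset.mem_union, Finset.mem_singleton, Finset.mem_biUnion]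
    by_cases hne : x = z
    · exact Or.inl hne
    · right
      obtain ⟨c, hcS, hcr, hcz, hxc⟩ := child hT hxS hxz hne
      refine ⟨c, Finset.mem_filter.2 ⟨hcS, hcr, hcz⟩, ?_⟩
      unfold nd
      exact Finset.mem_filter.2 ⟨hxS, hxn, hxc⟩
  have h1 := Finset.card_le_card hsub
  have h2 := Finset.card_union_le {z} ((Ch S r par z).biUnion (nd S r par sp))
  have h3 := Finset.card_biUnion_le_card_mul (Ch S r par z) (nd S r par sp) (th - 1) hch
  have h4 : (Ch S r par z).card ≤ d := by
    refine hdeg z hzS _ fun c hc => ?_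
    unfold Ch at hc
    rw [Finset.mem_filter] at hc
    exact hc
  rw [Finset.card_singleton] at h2
  have h5 : (Ch S r par z).card * (th - 1) ≤ d * (th - 1) := Nat.mul_le_mul_right _ h4
  have h6 : d * (th - 1) + d = d * th := by
    rw [← Nat.mul_succ]
    congr 1
    omega
  omega

lemma thr_pos (d : ℕ) : ∀ i, 1 ≤ thr d i
  | 0 => le_rfl
  | i + 1 => by unfold thr; omega

lemma thr_mono (hd : 1 ≤ d) (i : ℕ) : thr d i ≤ thr d (i + 1) := by
  have : thr d i ≤ d * thr d i := Nat.le_mul_of_pos_left _ (by omega)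
  show thr d i ≤ d * thr d i + 1
  omega

lemma seq (hd : 1 ≤ d) (hT : RTree G S r par h)
    (hdeg : ∀ x ∈ S, ∀ C : Finset V, (∀ c ∈ C, c ∈ S ∧ c ≠ r ∧ par c = x) → C.card ≤ d) :
    ∀ (m : ℕ) (u : V), u ∈ S → thr d m ≤ (nd S r par sp u).card →
      ∃ y : ℕ → V, (∀ i ≤ m, y i ∈ S ∧ thr d i ≤ (nd S r par sp (y i)).card ∧
        (nd S r par sp (y i)).card ≤ d * thr d i) ∧ (∀ i < m, Anc par (y i) (y (i + 1))) ∧
        Anc par (y m) u := by
  intro m
  induction m with
  | zero =>
    intro u hu hnu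
    obtain ⟨z, hz, hzu, h1, h2⟩ := descend hd hT hdeg (thr_pos d 0) hu hnu
    refine ⟨fun _ => z, ?_, ?_, hzu⟩
    · intro i hi
      have : i = 0 := by omega
      subst this
      exact ⟨hz, h1, h2⟩
    · intro i hi
      omega
  | succ m ih =>
    intro u hu hnu
    obtain ⟨z, hz, hzu, h1, h2⟩ := descend hd hT hdeg (thr_pos d (m + 1)) hu hnu
    obtain ⟨y, hy1, hy2, hy3⟩ := ih z hz ((thr_mono hd m).trans h1)
    refine ⟨fun i => if i = m + 1 then z else y i, ?_, ?_, ?_⟩
    · intro i hi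
      by_cases him : i = m + 1
      · subst him
        beta_reduce
        rw [if_pos rfl]
        exact ⟨hz, h1, h2⟩
      · beta_reduce
        rw [if_neg him]
        exact hy1 i (by omega)
    · intro i hi
      have him : i ≠ m + 1 := by omega
      show Anc par (if i = m + 1 then z else y i) (if i + 1 = m + 1 then z else y (i + 1))
      rw [if_neg him]
      by_cases him' : i + 1 = m + 1
      · rw [if_pos him']
        have : i = m := by omega
        subst this
        exact hy3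
      · rw [if_neg him']
        exact hy2 i (by omega)
    · show Anc par (if m + 1 = m + 1 then z else y (m + 1)) u
      rw [if_pos rfl]
      exact hzu

/-- a special vertex below every vertex -/
lemma special (hT : RTree G S r par h)
    (hleaf : ∀ x ∈ S, (∀ c ∈ S, c ≠ r → par c ≠ x) → sp x) {c : V} (hc : c ∈ S) :
    ∃ x ∈ S, sp x ∧ Anc par x c := by
  obtain ⟨x, hx, hmax⟩ := Finset.exists_max_image (S.filter (fun z => Anc par z c)) h
    ⟨c, Finset.mem_filter.2 ⟨hc, Anc.rfl' c⟩⟩
  rw [Finset.mem_filter] at hx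
  refine ⟨x, hx.1, hleaf x hx.1 ?_, hx.2⟩
  intro c' hc' hcr hpar
  have h1 := hmax c' (Finset.mem_filter.2 ⟨hc', (Anc.step hpar).trans hx.2⟩)
  have h2 := hT.height c' hc' hcr
  rw [hpar] at h2
  omega

lemma disj_special (hT : RTree G S r par h)
    (hleaf : ∀ x ∈ S, (∀ c ∈ S, c ≠ r → par c ≠ x) → sp x) {y s c : V}
    (hc : c ∈ S) (hcs : par c = s) (hsy : ¬ Anc par s y) (hyc : ¬ Anc par y c) :
    ∃ x ∈ S, sp x ∧ Anc par x s ∧ ¬ Anc par x y := by
  obtain ⟨x, hx, hsp, hxc⟩ := special hT hleaf hc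
  refine ⟨x, hx, hsp, hxc.trans (Anc.step hcs), ?_⟩
  intro hxy
  rcases hxc.cmp hxy with h1 | h1
  · obtain ⟨k, hk⟩ := h1
    rcases Nat.eq_zero_or_pos k with h0 | h0
    · subst h0
      exact hyc ⟨0, hk.symm⟩
    · obtain ⟨l, rfl⟩ : ∃ l, k = l + 1 := ⟨k - 1, by omega⟩
      rw [Function.iterate_succ_apply, hcs] at hk
      exact hsy ⟨l, hk⟩
  · exact hyc h1

theorem chain : S_CHAIN := by
  intro V _ G S r par h sp d hd hT hleaf hdeg m ⟨N, hNS, hNsp, hN⟩
  have hroot : thr d m ≤ (nd S r par sp r).card := by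
    refine hN.trans (Finset.card_le_card fun x hx => ?_)
    unfold nd
    exact Finset.mem_filter.2 ⟨hNS hx, Or.inl (hNsp x hx), anc_root hT (hNS hx)⟩
  obtain ⟨y, hy1, hy2, -⟩ := seq (sp := sp) hd hT hdeg m r hT.root_mem hroot
  have h4 : ∀ i < m, ∃ x ∈ S, sp x ∧ Anc par x (y (i + 1)) ∧ ¬ Anc par x (y i) := by
    intro i hi
    obtain ⟨a1, a2, a3⟩ := hy1 i (by omega)
    obtain ⟨b1, b2, b3⟩ := hy1 (i + 1) (by omega)
    have hlt : (nd S r par sp (y i)).card < (nd S r par sp (y (i + 1))).card := by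
      have : thr d (i + 1) = d * thr d i + 1 := rfl
      omega
    obtain ⟨s, hs, hs'⟩ := Finset.exists_mem_notMem_of_card_lt_card hlt
    unfold nd at hs hs'
    rw [Finset.mem_filter] at hs hs'
    obtain ⟨hsS, hsn, hsy⟩ := hs
    have hsy' : ¬ Anc par s (y i) := fun h' => hs' ⟨hsS, hsn, h'⟩
    rcases hsn with hsp | ⟨c, hc, c', hc', hne, hcr, hcr', hcs, hcs'⟩
    · exact ⟨s, hsS, hsp, hsy, hsy'⟩
    · by_cases hyc : Anc par (y i) c
      · have hyc' : ¬ Anc par (y i) c' := by
          intro h'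
          apply hne
          refine anc_same hT a1 hyc h' ?_
          have e1 := hT.height c hc hcr
          have e2 := hT.height c' hc' hcr'
          rw [hcs] at e1
          rw [hcs'] at e2
          omega
        obtain ⟨x, hx, hsp, hxs, hxy⟩ := disj_special hT hleaf hc' hcs' hsy' hyc'
        exact ⟨x, hx, hsp, hxs.trans hsy, hxy⟩
      · obtain ⟨x, hx, hsp, hxs, hxy⟩ := disj_special hT hleaf hc hcs hsy' hyc
        exact ⟨x, hx, hsp, hxs.trans hsy, hxy⟩
  refine ⟨y, fun i hi => (hy1 i hi).1, hy2, ?_, ?_, ?_⟩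
  · intro i hi N' hN'
    refine (Finset.card_le_card fun x hx => ?_).trans (hy1 i hi).2.2
    obtain ⟨e1, e2, e3⟩ := hN' x hx
    unfold nd
    exact Finset.mem_filter.2 ⟨e1, e2, e3⟩
  · intro i hi
    obtain ⟨x, hx, hsp, e1, e2⟩ := h4 i hi
    exact ⟨x, hx, hsp, e1, fun k hk => e2 ⟨k, hk⟩⟩
  · intro i hi
    obtain ⟨x, hx, hsp, e1, e2⟩ := h4 i hi
    obtain ⟨k, hk⟩ := hy2 i hi
    have hyS := (hy1 i (by omega)).1
    have hex : ∃ b, Anc par x (par^[b] (y i)) := ⟨k, by rw [hk]; exact e1⟩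
    set b := Nat.find hex with hb
    have hb1 : Anc par x (par^[b] (y i)) := Nat.find_spec hex
    have hbk : b ≤ k := Nat.find_min' hex (by rw [hk]; exact e1)
    obtain ⟨l, hl⟩ : ∃ l, b = l + 1 := by
      rcases Nat.eq_zero_or_pos b with h0 | h0
      · rw [h0] at hb1
        exact absurd hb1 e2
      · exact ⟨b - 1, by omega⟩
    have hmin : ¬ Anc par x (par^[l] (y i)) :=
      Nat.find_min hex (by omega : l < Nat.find hex)
    have hpar : par (par^[l] (y i)) = par^[l + 1] (y i) := by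
      rw [Function.iterate_succ_apply']
    rw [hl] at hb1
    refine ⟨l, ?_, k - (l + 1), ?_⟩
    · by_cases hxu : x = par^[l + 1] (y i)
      · left
        rw [← hxu]
        exact hsp
      · right
        obtain ⟨c, hcS, hcr, hcu, hxc⟩ := child hT hx hb1 hxu
        refine ⟨c, hcS, par^[l] (y i), iter_mem hT hyS l, ?_, hcr, ?_, hcu, hpar⟩
        · rintro rfl
          exact hmin hxc
        · intro hr
          apply hmin
          rw [hr, hT.par_root] at hpar
          rw [hr, hpar]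
          exact hb1
    · rw [← Function.iterate_add_apply, Nat.sub_add_cancel (by omega), hk]

end FL7
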