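import Pool.Agent.E8helper11.FL.Stm

/-!
# Project FL, piece COVER: covering an isometric path by rooted isometric paths
-/

set_option autoImplicit false

open SimpleGraph
open scoped Classical

namespace FL7

open FL11

variable {V : Type} {G : SimpleGraph V}

lemma getVert_up (hG : G.Connected) {a b : V} (q : G.Walk a b) (i n : ℕ) (h : i + n ≤ q.length) :
    G.dist (q.getVert i) (q.getVert (i + n)) ≤ n := by
  induction n with
  | zero => rw [Nat.add_zero, dist_self]
  | succ n ih =>
    have h1 := ih (by omega)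
    have h2 : G.dist (q.getVert (i + n)) (q.getVert (i + n + 1)) = 1 :=
      dist_eq_one_iff_adj.2 (q.adj_getVert_succ (by omega))
    have h3 := hG.dist_triangle (u := q.getVert i) (v := q.getVert (i + n))
      (w := q.getVert (i + n + 1))
    have e : i + (n + 1) = i + n + 1 := rfl
    rw [e]
    omega

lemma isoSeq_getVert (hG : G.Connected) {a b : V} (q : G.Walk a b) (hq : q.length = G.dist a b) :
    IsoSeq G q.getVert q.length := by
  intro i j hij hjl
  obtain ⟨n, rfl⟩ := Nat.exists_eq_add_of_le hij
  have h1 := getVert_up hG q i n hjl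
  have h2 := getVert_up hG q 0 i (by omega)
  have h3 := getVert_up hG q (i + n) (q.length - (i + n)) (by omega)
  rw [Nat.add_sub_cancel' hjl, Walk.getVert_length] at h3
  rw [Nat.zero_add, Walk.getVert_zero] at h2
  have h4 := hG.dist_triangle (u := a) (v := q.getVert i) (w := b)
  have h5 := hG.dist_triangle (u := q.getVert i) (v := q.getVert (i + n)) (w := b)
  omega

/-- a portion of a walk -/
lemma portion {a b : V} (q : G.Walk a b) (i n : ℕ) (h : i + n ≤ q.length) :
    ∃ W : G.Walk (q.getVert i) (q.getVert (i + n)), W.length = n ∧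
      ∀ j, i ≤ j → j ≤ i + n → q.getVert j ∈ W.support := by
  induction n with
  | zero =>
    refine ⟨Walk.nil, rfl, fun j h1 h2 => ?_⟩
    have : j = i := by omega
    rw [this]
    exact Walk.start_mem_support _
  | succ n ih =>
    obtain ⟨W, h1, h2⟩ := ih (by omega)
    have hadj : G.Adj (q.getVert (i + n)) (q.getVert (i + (n + 1))) :=
      q.adj_getVert_succ (by omega)
    refine ⟨W.concat hadj, by rw [Walk.length_concat, h1], fun j h3 h4 => ?_⟩
    rw [Walk.support_concat]
    by_cases hj : j ≤ i + n
    · exact List.mem_append_left _ (h2 j h3 hj)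
    · have : j = i + (n + 1) := by omega
      rw [this]
      exact List.mem_append_right _ (List.mem_singleton.2 rfl)

/-- the first vertices near the path -/
lemma first_near [Fintype V] {K T : ℕ} (hK : 1 ≤ K) (hG : G.Connected) {p : ℕ → V} {l : ℕ}
    (hp : IsoSeq G p l)
    (hT : ∀ S0 Z : Finset V,
      (G.induce (S0 : Set V)).Connected → (S0 : Set V) ⊆ Om G p l K → Z ⊆ S0 →
      (∀ z ∈ Z, Sp G p l K z) → Z.card ≤ T) (v : V) :
    ∃ z : ℕ → V, (∀ i ≤ l, (∃ j ≤ l, G.dist (z i) (p j) ≤ K) ∧
      G.dist v (p i) = G.dist v (z i) + G.dist (z i) (p i)) ∧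
      ((Finset.range (l + 1)).image z).card ≤ T + 1 := by
  by_cases hv : ∃ j ≤ l, G.dist v (p j) ≤ K
  · refine ⟨fun _ => v, fun i _ => ⟨hv, by rw [dist_self, Nat.zero_add]⟩, ?_⟩
    have h1 : (Finset.range (l + 1)).image (fun _ : ℕ => v) ⊆ {v} := by
      intro x hx
      obtain ⟨_, _, rfl⟩ := Finset.mem_image.1 hx
      exact Finset.mem_singleton_self _
    have h2 := Finset.card_le_card h1
    rw [Finset.card_singleton] at h2
    omega
  · have hQ : ∀ i, ∃ Q : G.Walk v (p i), Q.length = G.dist v (p i) := fun i =>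
      hG.exists_walk_length_eq_dist v (p i)
    choose Q hQl using hQ
    have hex : ∀ i, ∃ n, i ≤ l → ∃ j ≤ l, G.dist ((Q i).getVert n) (p j) ≤ K := by
      intro i
      refine ⟨(Q i).length, fun hi => ⟨i, hi, ?_⟩⟩
      rw [Walk.getVert_length, dist_self]
      exact Nat.zero_le _
    set n : ℕ → ℕ := fun i => Nat.find (hex i) with hn
    have hspec : ∀ i ≤ l, ∃ j ≤ l, G.dist ((Q i).getVert (n i)) (p j) ≤ K := fun i hi =>
      Nat.find_spec (hex i) hi
    have hmin : ∀ i ≤ l, ∀ m < n i, ∀ j ≤ l, K < G.dist ((Q i).getVert m) (p j) := by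
      intro i hi m hm j hj
      by_contra hcon
      exact Nat.find_min (hex i) hm fun _ => ⟨j, hj, not_lt.1 hcon⟩
    have hle : ∀ i, n i ≤ (Q i).length := by
      intro i
      refine Nat.find_min' (hex i) fun hi => ⟨i, hi, ?_⟩
      rw [Walk.getVert_length, dist_self]
      exact Nat.zero_le _
    have hpos : ∀ i ≤ l, 0 < n i := by
      intro i hi
      rcases Nat.eq_zero_or_pos (n i) with h0 | h0
      · exfalso
        apply hv
        have := hspec i hi
        rwa [h0, Walk.getVert_zero] at this
      · exact h0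
    refine ⟨fun i => (Q i).getVert (n i), fun i hi => ⟨hspec i hi, ?_⟩, ?_⟩
    · have h1 := isoSeq_getVert hG (Q i) (hQl i)
      have h2 := h1 0 (n i) (Nat.zero_le _) (hle i)
      have h3 := h1 (n i) (Q i).length (hle i) le_rfl
      rw [Walk.getVert_zero] at h2
      rw [Walk.getVert_length] at h3
      have h4 := hle i
      have h5 := hQl i
      beta_reduce
      omega
    · refine le_trans (hT ((Finset.range (l + 1)).biUnion fun i =>
        ((Q i).take (n i)).support.toFinset) _ ?_ ?_ ?_ ?_) (Nat.le_succ T)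
      · -- connected
        refine G.induce_connected_of_patches v ?_ ?_
        · rw [Finset.mem_coe, Finset.mem_biUnion]
          exact ⟨0, Finset.mem_range.2 (Nat.succ_pos l), List.mem_toFinset.2
            (Walk.start_mem_support _)⟩
        · intro w hw
          rw [Finset.mem_coe, Finset.mem_biUnion] at hw
          obtain ⟨i, hi, hw⟩ := hw
          rw [List.mem_toFinset] at hw
          refine ⟨{x | x ∈ ((Q i).take (n i)).support}, ?_, Walk.start_mem_support _, hw,
            (Walk.connected_induce_support _) _ _⟩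
          intro x hx
          rw [Finset.mem_coe, Finset.mem_biUnion]
          exact ⟨i, hi, List.mem_toFinset.2 hx⟩
      · -- far from the path
        intro x hx j hj
        rw [Finset.mem_coe, Finset.mem_biUnion] at hx
        obtain ⟨i, hi, hx⟩ := hx
        rw [List.mem_toFinset, Walk.mem_support_iff_exists_getVert] at hx
        obtain ⟨m, hm, -⟩ := hx
        rw [Walk.take_getVert] at hm
        have hi' : i ≤ l := by
          have := Finset.mem_range.1 hi
          omega
        set m' := n i ⊓ m with hm'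
        have hm2 : m' ≤ n i := inf_le_left
        rcases Nat.lt_or_ge m' (n i) with h1 | h1
        · have := hmin i hi' m' h1 j hj
          rw [hm] at this
          exact this.le
        · have h2 : m' = n i := le_antisymm hm2 h1
          have h3 := hpos i hi'
          have h4 := hmin i hi' (n i - 1) (by omega) j hj
          have h5 : G.dist ((Q i).getVert (n i - 1)) ((Q i).getVert (n i)) = 1 := by
            have h6 := (Q i).adj_getVert_succ (i := n i - 1) (by have := hle i; omega)
            have e : n i - 1 + 1 = n i := by omega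
            rw [e] at h6
            exact dist_eq_one_iff_adj.2 h6
          have h6 := hG.dist_triangle (u := (Q i).getVert (n i - 1)) (v := (Q i).getVert (n i))
            (w := p j)
          rw [h2] at hm
          rw [← hm]
          omega
      · intro x hx
        obtain ⟨i, hi, rfl⟩ := Finset.mem_image.1 hx
        rw [Finset.mem_biUnion]
        exact ⟨i, hi, List.mem_toFinset.2 (Walk.end_mem_support _)⟩
      · intro x hx
        obtain ⟨i, hi, rfl⟩ := Finset.mem_image.1 hx
        have hi' : i ≤ l := by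
          have := Finset.mem_range.1 hi
          omega
        obtain ⟨j, hj, h1⟩ := hspec i hi'
        exact ⟨j, hj, by omega⟩

theorem cover : S_COVER := by
  intro V _ G K T hK hG hT v a b q hq
  set l := q.length with hl
  have hp : IsoSeq G q.getVert l := isoSeq_getVert hG q hq.2
  obtain ⟨z, hz, hzc⟩ := first_near hK hG hp (hT _ _ hp) v
  -- indices near a vertex
  have hA : ∀ x : V, ∃ α, (∃ j ≤ l, G.dist x (q.getVert j) ≤ K) →
      α ≤ l ∧ G.dist x (q.getVert α) ≤ K := by
    intro x
    by_cases hx : ∃ j ≤ l, G.dist x (q.getVert j) ≤ K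
    · obtain ⟨j, hj, h1⟩ := hx
      exact ⟨j, fun _ => ⟨hj, h1⟩⟩
    · exact ⟨0, fun h' => absurd h' hx⟩
  choose A hA using hA
  -- the key
  set c : ℕ → ℕ := fun i => (i - A (z i)) + (A (z i) - i) + K - G.dist (z i) (q.getVert i) with hc
  set κ : ℕ → V × (Bool × ℕ) := fun i => (z i, (decide (A (z i) ≤ i), c i)) with hκ
  have hdist : ∀ i ≤ l, G.dist (q.getVert (A (z i))) (q.getVert i) =
      (i - A (z i)) + (A (z i) - i) := by
    intro i hi
    obtain ⟨h1, h2⟩ := hA (z i) (hz i hi).1
    rcases le_total (A (z i)) i with h3 | h3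
    · have := hp _ _ h3 hi
      omega
    · have := hp _ _ h3 h1
      rw [dist_comm] at this
      omega
  have hc1 : ∀ i ≤ l, c i + G.dist (z i) (q.getVert i) = (i - A (z i)) + (A (z i) - i) + K ∧
      c i ≤ 2 * K := by
    intro i hi
    obtain ⟨h1, h2⟩ := hA (z i) (hz i hi).1
    have h3 := hdist i hi
    have h4 := hG.dist_triangle (u := z i) (v := q.getVert (A (z i))) (w := q.getVert i)
    have h5 := hG.dist_triangle (u := q.getVert (A (z i))) (v := z i) (w := q.getVert i)
    have h6 : G.dist (q.getVert (A (z i))) (z i) = G.dist (z i) (q.getVert (A (z i))) := dist_comm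
    have h7 : c i = (i - A (z i)) + (A (z i) - i) + K - G.dist (z i) (q.getVert i) := rfl
    omega
  set keys := (Finset.range (l + 1)).image κ with hkeys
  have hcard : keys.card ≤ (T + 1) * (2 * (2 * K + 1)) := by
    have hsub : keys ⊆ ((Finset.range (l + 1)).image z) ×ˢ
        ((Finset.univ : Finset Bool) ×ˢ Finset.range (2 * K + 1)) := by
      intro k hk
      obtain ⟨i, hi, rfl⟩ := Finset.mem_image.1 hk
      have hi' : i ≤ l := by
        have := Finset.mem_range.1 hi
        omega
      rw [Finset.mem_product, Finset.mem_product]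
      refine ⟨Finset.mem_image_of_mem z hi, Finset.mem_univ _, Finset.mem_range.2 ?_⟩
      have := (hc1 i hi').2
      show c i < 2 * K + 1
      omega
    refine (Finset.card_le_card hsub).trans ?_
    rw [Finset.card_product, Finset.card_product, Finset.card_range, Finset.card_univ,
      Fintype.card_bool]
    exact Nat.mul_le_mul_right _ hzc
  -- a path for every key
  have hpath : ∀ k ∈ keys, ∃ W : Σ w : V, G.Walk v w, IsIsometric W.2 ∧
      ∀ i ≤ l, κ i = k → q.getVert i ∈ W.2.support := by
    intro k hk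
    set C := (Finset.range (l + 1)).filter (fun i => κ i = k) with hC
    have hCne : C.Nonempty := by
      obtain ⟨i, hi, h1⟩ := Finset.mem_image.1 hk
      exact ⟨i, Finset.mem_filter.2 ⟨hi, h1⟩⟩
    have hCm : ∀ i, i ∈ C ↔ i ≤ l ∧ κ i = k := by
      intro i
      rw [hC, Finset.mem_filter, Finset.mem_range, Nat.lt_succ_iff]
    set i0 := C.min' hCne with hi0
    set i1 := C.max' hCne with hi1
    have m0 := (hCm i0).1 (C.min'_mem hCne)
    have m1 := (hCm i1).1 (C.max'_mem hCne)
    have hle0 : ∀ i ≤ l, κ i = k → i0 ≤ i := fun i h1 h2 => C.min'_le i ((hCm i).2 ⟨h1, h2⟩)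
    have hle1 : ∀ i ≤ l, κ i = k → i ≤ i1 := fun i h1 h2 => C.le_max' i ((hCm i).2 ⟨h1, h2⟩)
    have h01 : i0 ≤ i1 := hle0 i1 m1.1 m1.2
    have e01 : κ i0 = κ i1 := m0.2.trans m1.2.symm
    have ez : z i0 = z i1 := congrArg Prod.fst e01
    have es : decide (A (z i0) ≤ i0) = decide (A (z i1) ≤ i1) :=
      congrArg (fun t : V × (Bool × ℕ) => t.2.1) e01
    have ec : c i0 = c i1 := congrArg (fun t : V × (Bool × ℕ) => t.2.2) e01
    obtain ⟨f0, -⟩ := hc1 i0 m0.1
    obtain ⟨f1, -⟩ := hc1 i1 m1.1
    have g0 := (hz i0 m0.1).2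
    have g1 := (hz i1 m1.1).2
    have hs : A (z i0) ≤ i0 ↔ A (z i1) ≤ i1 := decide_eq_decide.1 es
    rw [ez] at f0 g0 hs
    have hR : ∃ R : G.Walk (q.getVert i0) (q.getVert i1), R.length = i1 - i0 ∧
        ∀ j, i0 ≤ j → j ≤ i1 → q.getVert j ∈ R.support := by
      have hh := portion q i0 (i1 - i0) (by omega)
      have e : i0 + (i1 - i0) = i1 := by omega
      rw [e] at hh
      exact hh
    obtain ⟨R, hR1, hR2⟩ := hR
    by_cases hside : A (z i1) ≤ i1
    · have hside0 := hs.2 hside
      obtain ⟨W0, hW0⟩ := hG.exists_walk_length_eq_dist v (q.getVert i0)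
      have hlen : (W0.append R).length = G.dist v (q.getVert i1) := by
        rw [Walk.length_append, hW0, hR1]
        omega
      refine ⟨⟨_, W0.append R⟩, ⟨Walk.isPath_of_length_eq_dist _ hlen, hlen⟩, fun i h1 h2 => ?_⟩
      rw [Walk.mem_support_append_iff]
      exact Or.inr (hR2 i (hle0 i h1 h2) (hle1 i h1 h2))
    · have hside0 : ¬ A (z i1) ≤ i0 := fun h' => hside (hs.1 h')
      obtain ⟨W0, hW0⟩ := hG.exists_walk_length_eq_dist v (q.getVert i1)
      have hlen : (W0.append R.reverse).length = G.dist v (q.getVert i0) := by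
        rw [Walk.length_append, hW0, Walk.length_reverse, hR1]
        omega
      refine ⟨⟨_, W0.append R.reverse⟩, ⟨Walk.isPath_of_length_eq_dist _ hlen, hlen⟩,
        fun i h1 h2 => ?_⟩
      rw [Walk.mem_support_append_iff, Walk.support_reverse, List.mem_reverse]
      exact Or.inr (hR2 i (hle0 i h1 h2) (hle1 i h1 h2))
  choose F hF1 hF2 using hpath
  refine ⟨keys.card, hcard, fun j => F (keys.equivFin.symm j).1 (keys.equivFin.symm j).2,
    fun j => hF1 _ _, ?_⟩
  intro x hx
  rw [Walk.mem_support_iff_exists_getVert] at hx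
  obtain ⟨i, hi, hil⟩ := hx
  have hmem : κ i ∈ keys := Finset.mem_image_of_mem κ (Finset.mem_range.2 (by omega))
  have key : ∀ t : {k // k ∈ keys}, κ i = t.1 → q.getVert i ∈ (F t.1 t.2).2.support :=
    fun t ht => hF2 t.1 t.2 i hil ht
  refine ⟨keys.equivFin ⟨κ i, hmem⟩, ?_⟩
  rw [← hi]
  exact key _ (by rw [Equiv.symm_apply_apply])

end FL7
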